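import Mathlib
import Pool.Agent.R556.PolySuff

/-!
# MP_e7d137_lc: the marginal scenarios on which every partial polymatroid extends

Every partial polymatroid on the marginal scenario `M` is non-contextual if and only if `M` is
Vorob'ev-regular and every facet with at least four elements meets every other facet in at most
one element.
-/

set_option autoImplicit false

namespace Pool.Agent.Results.MP_e7d137_lc.Classification

open Finset Pool.Agent.R556.PolyExt

/-- `M` is a marginal scenario on `[n]`: a family of subsets closed under taking subsets and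
containing the empty set. -/
def IsScenario {n : ℕ} (M : Set (Finset (Fin n))) : Prop :=
  ∅ ∈ M ∧ ∀ S ∈ M, ∀ T ⊆ S, T ∈ M

/-- `F` is a facet of `M`: an inclusion-maximal member. -/
def IsFacet {n : ℕ} (M : Set (Finset (Fin n))) (F : Finset (Fin n)) : Prop :=
  F ∈ M ∧ ∀ G ∈ M, F ⊆ G → F = G

/-- `f` is a polymatroid on `[n]`. -/
def IsPolymatroid {n : ℕ} (f : Finset (Fin n) → ℝ) : Prop :=
  f ∅ = 0 ∧ (∀ S, 0 ≤ f S) ∧ (∀ S T, S ⊆ T → f S ≤ f T) ∧
    ∀ S T, f (S ∪ T) + f (S ∩ T) ≤ f S + f T

/-- `g` is a partial polymatroid on `M` (only the values of `g` on `M` matter). -/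
def IsPartialPolymatroid {n : ℕ} (M : Set (Finset (Fin n))) (g : Finset (Fin n) → ℝ) : Prop :=
  g ∅ = 0 ∧ (∀ S ∈ M, 0 ≤ g S) ∧ (∀ S ∈ M, ∀ T ∈ M, S ⊆ T → g S ≤ g T) ∧
    ∀ S ∈ M, ∀ T ∈ M, S ∪ T ∈ M → g (S ∪ T) + g (S ∩ T) ≤ g S + g T

/-- `g` is non-contextual: on `M` it agrees with a polymatroid on `[n]`. -/
def NonContextual {n : ℕ} (M : Set (Finset (Fin n))) (g : Finset (Fin n) → ℝ) : Prop :=
  ∃ f : Finset (Fin n) → ℝ, IsPolymatroid f ∧ ∀ S ∈ M, f S = g S

/-- `M` is Vorob'ev-regular: its facets can be listed as `F 0, …, F (k-1)` such that for every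
`1 ≤ j < k` the set `F j ∩ (F 0 ∪ ⋯ ∪ F (j-1))` is contained in `F i` for some `i < j`. -/
def VorobevRegular {n : ℕ} (M : Set (Finset (Fin n))) : Prop :=
  ∃ (k : ℕ) (F : ℕ → Finset (Fin n)), (∀ S, IsFacet M S ↔ ∃ j < k, F j = S) ∧
    (∀ i < k, ∀ j < k, F i = F j → i = j) ∧
    ∀ j < k, 1 ≤ j → ∃ i < j, F j ∩ (range j).biUnion F ⊆ F i

variable {n : ℕ} {M : Set (Finset (Fin n))}

/-- every face is contained in a facet -/
theorem exists_facet (S : Finset (Fin n)) (hS : S ∈ M) : ∃ F, IsFacet M F ∧ S ⊆ F := by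
  classical
  obtain ⟨F, hF, hmax⟩ := (Set.toFinite M).exists_le_maximal hS
  refine ⟨F, ⟨hmax.prop, fun G hG h => ?_⟩, hF⟩
  exact hmax.eq_of_le hG h

/-! ### Minimal non-faces -/

/-- the function with a too large value on `S` minus `c` -/
def circ (S : Finset (Fin n)) (c : Fin n) (U : Finset (Fin n)) : ℕ :=
  if U = S.erase c then S.card - 1 else min U.card (S.card - 2)

theorem circ_mono {S : Finset (Fin n)} {c : Fin n} (hS : 3 ≤ S.card) (hc : c ∈ S)
    {t u : Finset (Fin n)} (htu : t ⊆ u) (huS : u ⊆ S) (hu : u ≠ S) : circ S c t ≤ circ S c u := by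
  have hcard := Finset.card_erase_of_mem hc
  unfold circ
  by_cases h1 : t = S.erase c
  · have h2 : u = S.erase c := by
      rw [h1] at htu
      have h3 : u.card < S.card := Finset.card_lt_card ⟨huS, fun h => hu (Finset.Subset.antisymm huS h)⟩
      exact (Finset.eq_of_subset_of_card_le htu (by omega)).symm
    rw [if_pos h1, if_pos h2]
  · rw [if_neg h1]
    have := Finset.card_le_card htu
    split_ifs with h2 <;> omega

theorem circ_sub {S : Finset (Fin n)} {c : Fin n} (hS : 3 ≤ S.card) (hc : c ∈ S)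
    {t u : Finset (Fin n)} (ht : t ⊆ S) (hu : u ⊆ S) (htu : t ∪ u ≠ S) :
    circ S c (t ∪ u) + circ S c (t ∩ u) ≤ circ S c t + circ S c u := by
  have hcard := Finset.card_erase_of_mem hc
  have h1 := Finset.card_union_add_card_inter t u
  have hle : ∀ w ⊆ S.erase c, circ S c w = w.card := by
    intro w hw
    unfold circ
    split_ifs with h
    · rw [h, hcard]
    · have : w.card < (S.erase c).card :=
        Finset.card_lt_card ⟨hw, fun h' => h (Finset.Subset.antisymm hw h')⟩
      omega
  by_cases h2 : c ∈ t ∪ u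
  · have h3 : ∀ w, S.erase c ⊆ w → w ⊆ t ∪ u → False := by
      intro w hw hw'
      apply htu
      refine Finset.Subset.antisymm (Finset.union_subset ht hu) ?_
      intro i hi
      by_cases hic : i = c
      · rw [hic]; exact h2
      · exact hw' (hw (Finset.mem_erase.2 ⟨hic, hi⟩))
    have k1 : t ∪ u ≠ S.erase c := fun h => h3 (t ∪ u) h.symm.subset (le_refl _)
    have k2 : t ≠ S.erase c := fun h => h3 t h.symm.subset Finset.subset_union_left
    have k3 : u ≠ S.erase c := fun h => h3 u h.symm.subset Finset.subset_union_right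
    have k4 : t ∩ u ≠ S.erase c := fun h => h3 (t ∩ u) h.symm.subset
      (Finset.inter_subset_left.trans Finset.subset_union_left)
    unfold circ
    rw [if_neg k1, if_neg k2, if_neg k3, if_neg k4]
    have l1 := Finset.card_le_card (Finset.inter_subset_left : t ∩ u ⊆ t)
    have l2 := Finset.card_le_card (Finset.inter_subset_right : t ∩ u ⊆ u)
    omega
  · have h3 : t ∪ u ⊆ S.erase c := by
      intro i hi
      refine Finset.mem_erase.2 ⟨fun h => h2 (h ▸ hi), Finset.union_subset ht hu hi⟩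
    have k2 : t ⊆ S.erase c := Finset.subset_union_left.trans h3
    have k3 : u ⊆ S.erase c := Finset.subset_union_right.trans h3
    have k4 : t ∩ u ⊆ S.erase c := Finset.inter_subset_left.trans k2
    rw [hle _ h3, hle _ k2, hle _ k3, hle _ k4]
    omega

theorem minimal_nonface (hM : IsScenario M)
    (hP : ∀ g, IsPartialPolymatroid M g → NonContextual M g)
    {S : Finset (Fin n)} (hS : S ∉ M) (hS' : ∀ T, T ⊆ S → T ≠ S → T ∈ M) : S.card ≤ 2 := by
  by_contra hcard
  push Not at hcard
  obtain ⟨a, b, c, ha, hb, hc, hab, hac, hbc⟩ := Finset.two_lt_card_iff.1 hcard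
  have hne : ∀ U ∈ M, U ∩ S ≠ S := by
    intro U hU h
    exact hS (hM.2 U hU S (Finset.inter_eq_right.1 h))
  obtain ⟨f, ⟨_, _, fm, fs⟩, hf⟩ := hP (fun U => (circ S c (U ∩ S) : ℝ)) (by
    refine ⟨?_, fun _ _ => Nat.cast_nonneg _, ?_, ?_⟩
    · have : circ S c (∅ ∩ S) = 0 := by
        unfold circ
        rw [Finset.empty_inter, if_neg]
        · simp
        · intro h
          have := Finset.card_erase_of_mem hc
          rw [← h, Finset.card_empty] at this
          omega
      simp only [this, Nat.cast_zero]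
    · intro U _ W hW h
      have h' := circ_mono (by omega) hc (Finset.inter_subset_inter h (le_refl S))
        Finset.inter_subset_right (hne W hW)
      change ((circ S c (U ∩ S) : ℕ) : ℝ) ≤ ((circ S c (W ∩ S) : ℕ) : ℝ)
      exact_mod_cast h'
    · intro U _ W _ hUW
      have e1 : (U ∪ W) ∩ S = U ∩ S ∪ W ∩ S := Finset.union_inter_distrib_right _ _ _
      have e2 : (U ∩ W) ∩ S = (U ∩ S) ∩ (W ∩ S) := by
        ext i; simp only [Finset.mem_inter]; tauto
      have h := circ_sub (by omega) hc (t := U ∩ S) (u := W ∩ S) Finset.inter_subset_right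
        Finset.inter_subset_right (by rw [← e1]; exact hne _ hUW)
      simp only [e1, e2]
      exact_mod_cast h)
  have hsub : ∀ T, T ⊆ S → T ≠ S → f T = circ S c T := by
    intro T h1 h2
    rw [hf T (hS' T h1 h2)]
    change ((circ S c (T ∩ S) : ℕ) : ℝ) = _
    rw [Finset.inter_eq_left.2 h1]
  have ca := Finset.card_erase_of_mem ha
  have cb := Finset.card_erase_of_mem hb
  have cc := Finset.card_erase_of_mem hc
  have na : S.erase a ≠ S := fun h => by rw [h] at ca; omega
  have nb : S.erase b ≠ S := fun h => by rw [h] at cb; omega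
  have nc : S.erase c ≠ S := fun h => by rw [h] at cc; omega
  have fa : f (S.erase a) = ((S.card - 2 : ℕ) : ℝ) := by
    rw [hsub _ (Finset.erase_subset _ _) na]
    unfold circ
    rw [if_neg, ca]
    · congr 1; omega
    · intro h
      have : c ∈ S.erase a := Finset.mem_erase.2 ⟨hac.symm, hc⟩
      rw [h] at this
      exact Finset.notMem_erase _ _ this
  have fb : f (S.erase b) = ((S.card - 2 : ℕ) : ℝ) := by
    rw [hsub _ (Finset.erase_subset _ _) nb]
    unfold circ
    rw [if_neg, cb]
    · congr 1; omega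
    · intro h
      have : c ∈ S.erase b := Finset.mem_erase.2 ⟨hbc.symm, hc⟩
      rw [h] at this
      exact Finset.notMem_erase _ _ this
  have fc : f (S.erase c) = ((S.card - 1 : ℕ) : ℝ) := by
    rw [hsub _ (Finset.erase_subset _ _) nc]
    unfold circ
    rw [if_pos rfl]
  have cab : (S.erase a ∩ S.erase b).card = S.card - 2 := by
    have h1 := Finset.card_union_add_card_inter (S.erase a) (S.erase b)
    have h2 : S.erase a ∪ S.erase b = S := by
      refine Finset.Subset.antisymm
        (Finset.union_subset (Finset.erase_subset _ _) (Finset.erase_subset _ _)) ?_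
      intro i hi
      by_cases hia : i = a
      · exact Finset.mem_union_right _ (Finset.mem_erase.2 ⟨hia ▸ hab, hi⟩)
      · exact Finset.mem_union_left _ (Finset.mem_erase.2 ⟨hia, hi⟩)
    rw [h2, ca, cb] at h1
    omega
  have fab : f (S.erase a ∩ S.erase b) = ((S.card - 2 : ℕ) : ℝ) := by
    rw [hsub _ (Finset.inter_subset_left.trans (Finset.erase_subset _ _))]
    · unfold circ
      rw [if_neg, cab, min_self]
      intro h
      rw [h] at cab
      omega
    · intro h
      rw [h] at cab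
      omega
  have h1 := fs (S.erase a) (S.erase b)
  have h2 : S.erase c ⊆ S.erase a ∪ S.erase b := by
    intro i hi
    have hi' := Finset.mem_of_mem_erase hi
    by_cases hia : i = a
    · exact Finset.mem_union_right _ (Finset.mem_erase.2 ⟨hia ▸ hab, hi'⟩)
    · exact Finset.mem_union_left _ (Finset.mem_erase.2 ⟨hia, hi'⟩)
  have h3 := fm _ _ h2
  rw [fa, fb, fab] at h1
  rw [fc] at h3
  have h4 : ((S.card - 1 : ℕ) : ℝ) = ((S.card - 2 : ℕ) : ℝ) + 1 := by
    have : S.card - 1 = (S.card - 2) + 1 := by omega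
    rw [this]; push_cast; ring
  linarith

/-- a set all whose pairs are faces is a face -/
theorem flag (hM : IsScenario M) (hP : ∀ g, IsPartialPolymatroid M g → NonContextual M g)
    {T : Finset (Fin n)} (hT : ∀ a ∈ T, ∀ b ∈ T, ({a, b} : Finset (Fin n)) ∈ M) : T ∈ M := by
  by_contra hTM
  have key : ∀ m : ℕ, ∀ S : Finset (Fin n), S.card = m → S ⊆ T → S ∉ M → False := by
    intro m
    induction m using Nat.strong_induction_on with
    | _ m ih =>
      intro S hm hST hSM
      have h1 := minimal_nonface hM hP hSM (by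
        intro U hU hne
        by_contra h
        exact ih U.card (by
          rw [← hm]
          exact Finset.card_lt_card ⟨hU, fun h' => hne (Finset.Subset.antisymm hU h')⟩) U rfl
          (hU.trans hST) h)
      have h2 : S.card = 0 ∨ S.card = 1 ∨ S.card = 2 := by omega
      rcases h2 with h | h | h
      · rw [Finset.card_eq_zero] at h
        rw [h] at hSM
        exact hSM hM.1
      · rw [Finset.card_eq_one] at h
        obtain ⟨a, rfl⟩ := h
        have := hT a (hST (by simp)) a (hST (by simp))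
        rw [Finset.pair_eq_singleton] at this
        exact hSM this
      · rw [Finset.card_eq_two] at h
        obtain ⟨a, b, _, rfl⟩ := h
        exact hSM (hT a (hST (by simp)) b (hST (by simp)))
  exact key _ T rfl le_rfl hTM

/-! ### Separators -/

/-- adjacency -/
def Adj (M : Set (Finset (Fin n))) (a b : Fin n) : Prop := ({a, b} : Finset (Fin n)) ∈ M

theorem Adj.symm {a b : Fin n} (h : Adj M a b) : Adj M b a := by
  unfold Adj at *
  rw [Finset.pair_comm]; exact h

/-- `X` is a side of the separator `S` of `a` and `b` in `W` -/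
def Side (M : Set (Finset (Fin n))) (W S X : Finset (Fin n)) (a b : Fin n) : Prop :=
  X ⊆ W ∧ Disjoint X S ∧ a ∈ X ∧ b ∈ W ∧ b ∉ X ∧ b ∉ S ∧
    ∀ v ∈ X, ∀ w ∈ W, Adj M v w → w ∈ X ∨ w ∈ S

theorem Side.symm {W S X : Finset (Fin n)} {a b : Fin n} (h : Side M W S X a b) :
    Side M W S ((W \ X) \ S) b a := by
  obtain ⟨h1, h2, h3, h4, h5, h6, h7⟩ := h
  refine ⟨?_, ?_, ?_, h1 h3, ?_, ?_, ?_⟩
  · exact (Finset.sdiff_subset).trans Finset.sdiff_subset
  · exact Finset.sdiff_disjoint
  · simp only [Finset.mem_sdiff]; exact ⟨⟨h4, h5⟩, h6⟩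
  · simp only [Finset.mem_sdiff]; tauto
  · intro h; exact (Finset.disjoint_left.1 h2 h3 h)
  · intro v hv w hw hvw
    simp only [Finset.mem_sdiff] at hv ⊢
    by_cases hwX : w ∈ X
    · rcases h7 w hwX v hv.1.1 hvw.symm with h | h
      · exact absurd h hv.1.2
      · exact absurd h hv.2
    · by_cases hwS : w ∈ S
      · exact Or.inr hwS
      · exact Or.inl ⟨⟨hw, hwX⟩, hwS⟩

/-- the key step: a class of a minimal separation that contains the neighbours of `x` has a
neighbour of `y` -/
theorem side_step {W S X : Finset (Fin n)} {a b : Fin n} (h : Side M W S X a b)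
    (hmin : ∀ S' X' : Finset (Fin n), Side M W S' X' a b → S.card ≤ S'.card)
    {x y : Fin n} (hx : x ∈ S) (hy : y ∈ S) (R : Fin n → Prop)
    (hR : ∀ v ∈ X, ∀ w ∈ X, Adj M v w → R v → R w) (hRx : ∀ v ∈ X, Adj M v x → R v) :
    ∃ v ∈ X, R v ∧ Adj M v y := by
  classical
  obtain ⟨h1, h2, h3, h4, h5, h6, h7⟩ := h
  by_contra hcon
  push Not at hcon
  by_cases ha : R a
  · have hs : Side M W (S.erase y) (X.filter R) a b := by
      refine ⟨(Finset.filter_subset _ _).trans h1, ?_, Finset.mem_filter.2 ⟨h3, ha⟩, h4, ?_, ?_, ?_⟩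
      · exact Finset.disjoint_of_subset_left (Finset.filter_subset _ _)
          (Finset.disjoint_of_subset_right (Finset.erase_subset _ _) h2)
      · intro h; exact h5 (Finset.mem_filter.1 h).1
      · intro h; exact h6 (Finset.mem_of_mem_erase h)
      · intro v hv w hw hvw
        rw [Finset.mem_filter] at hv
        rcases h7 v hv.1 w hw hvw with h | h
        · left; exact Finset.mem_filter.2 ⟨h, hR v hv.1 w h hvw hv.2⟩
        · right
          refine Finset.mem_erase.2 ⟨?_, h⟩
          rintro rfl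
          exact hcon v hv.1 hv.2 hvw
    have := hmin _ _ hs
    have h8 := Finset.card_erase_of_mem hy
    have h9 := Finset.card_pos.2 ⟨y, hy⟩
    omega
  · have hs : Side M W (S.erase x) (X.filter fun v => ¬ R v) a b := by
      refine ⟨(Finset.filter_subset _ _).trans h1, ?_, Finset.mem_filter.2 ⟨h3, ha⟩, h4, ?_, ?_, ?_⟩
      · exact Finset.disjoint_of_subset_left (Finset.filter_subset _ _)
          (Finset.disjoint_of_subset_right (Finset.erase_subset _ _) h2)
      · intro h; exact h5 (Finset.mem_filter.1 h).1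
      · intro h; exact h6 (Finset.mem_of_mem_erase h)
      · intro v hv w hw hvw
        rw [Finset.mem_filter] at hv
        rcases h7 v hv.1 w hw hvw with h | h
        · left
          refine Finset.mem_filter.2 ⟨h, fun hw' => hv.2 (hR w h v hv.1 hvw.symm hw')⟩
        · right
          refine Finset.mem_erase.2 ⟨?_, h⟩
          rintro rfl
          exact hv.2 (hRx v hv.1 hvw)
    have := hmin _ _ hs
    have h8 := Finset.card_erase_of_mem hx
    have h9 := Finset.card_pos.2 ⟨x, hx⟩
    omega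

/-- the function with a cycle, on subsets of the support -/
noncomputable def cyc0 (E : Finset (Fin n)) (x : Fin n) (U : Finset (Fin n)) : ℝ :=
  open Classical in
  if U = ∅ then 0 else if x ∈ U ∧ (U ∩ E).Nonempty then 2 else 1

theorem cyc0_empty {E : Finset (Fin n)} {x : Fin n} : cyc0 E x ∅ = 0 := by
  unfold cyc0; rw [if_pos rfl]

theorem cyc0_two {E : Finset (Fin n)} {x : Fin n} {T : Finset (Fin n)} (h1 : x ∈ T)
    {e : Fin n} (h2 : e ∈ T) (h3 : e ∈ E) : cyc0 E x T = 2 := by
  unfold cyc0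
  rw [if_neg, if_pos ⟨h1, e, Finset.mem_inter.2 ⟨h2, h3⟩⟩]
  intro h; rw [h] at h1; exact Finset.notMem_empty _ h1

theorem cyc0_one {E : Finset (Fin n)} {x : Fin n} {T : Finset (Fin n)}
    (h2 : T.Nonempty) (h4 : ¬ (x ∈ T ∧ (T ∩ E).Nonempty)) :
    cyc0 E x T = 1 := by
  unfold cyc0
  rw [if_neg h2.ne_empty, if_neg h4]

theorem cyc0_cases (E : Finset (Fin n)) (x : Fin n) (T : Finset (Fin n)) :
    (T = ∅ ∧ cyc0 E x T = 0) ∨ (T.Nonempty ∧ (x ∈ T ∧ (T ∩ E).Nonempty) ∧ cyc0 E x T = 2) ∨
      (T.Nonempty ∧ ¬ (x ∈ T ∧ (T ∩ E).Nonempty) ∧ cyc0 E x T = 1) := by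
  rcases Finset.eq_empty_or_nonempty T with h | h
  · left; exact ⟨h, by rw [h]; exact cyc0_empty⟩
  · by_cases h' : x ∈ T ∧ (T ∩ E).Nonempty
    · right; left
      obtain ⟨h1, e, he⟩ := h'
      rw [Finset.mem_inter] at he
      exact ⟨h, ⟨h1, e, Finset.mem_inter.2 he⟩, cyc0_two h1 he.1 he.2⟩
    · right; right
      exact ⟨h, h', cyc0_one h h'⟩

theorem cyc0_nonneg (E : Finset (Fin n)) (x : Fin n) (T : Finset (Fin n)) : 0 ≤ cyc0 E x T := by
  rcases cyc0_cases E x T with h | h | h
  · rw [h.2]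
  · rw [h.2.2]; norm_num
  · rw [h.2.2]; norm_num

theorem cyc0_mono {E : Finset (Fin n)} {x : Fin n} {S T : Finset (Fin n)} (hST : S ⊆ T) :
    cyc0 E x S ≤ cyc0 E x T := by
  rcases cyc0_cases E x S with h | h | h
  · rw [h.2]; exact cyc0_nonneg _ _ _
  · obtain ⟨_, ⟨h1, e, he⟩, h2⟩ := h
    rw [Finset.mem_inter] at he
    rw [h2, cyc0_two (hST h1) (hST he.1) he.2]
  · obtain ⟨⟨a, ha⟩, _, h2⟩ := h
    rw [h2]
    rcases cyc0_cases E x T with h | h | h
    · rw [h.1] at hST; exact absurd (hST ha) (Finset.notMem_empty _)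
    · rw [h.2.2]; norm_num
    · rw [h.2.2]

theorem cyc0_sub {E : Finset (Fin n)} {x : Fin n} {S T : Finset (Fin n)}
    (h : x ∈ S ∪ T → ((S ∪ T) ∩ E).Nonempty → ∀ i ∈ S ∪ T, i = x ∨ i ∈ E) :
    cyc0 E x (S ∪ T) + cyc0 E x (S ∩ T) ≤ cyc0 E x S + cyc0 E x T := by
  rcases cyc0_cases E x S with hS | hS | hS
  · rw [hS.1, Finset.empty_union, Finset.empty_inter]; linarith
  · -- `S` has value 2
    have h1 : cyc0 E x (S ∪ T) = 2 := by
      obtain ⟨_, ⟨h1, e, he⟩, h2⟩ := hS
      rw [Finset.mem_inter] at he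
      exact cyc0_two (Finset.mem_union_left _ h1) (Finset.mem_union_left _ he.1) he.2
    have h2 : cyc0 E x (S ∩ T) ≤ cyc0 E x T := cyc0_mono Finset.inter_subset_right
    rw [h1, hS.2.2]; linarith
  · rcases cyc0_cases E x T with hT | hT | hT
    · rw [hT.1, Finset.union_empty, Finset.inter_empty]
    · have h1 : cyc0 E x (S ∪ T) = 2 := by
        obtain ⟨_, ⟨h1, e, he⟩, h2⟩ := hT
        rw [Finset.mem_inter] at he
        exact cyc0_two (Finset.mem_union_right _ h1) (Finset.mem_union_right _ he.1) he.2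
      have h2 : cyc0 E x (S ∩ T) ≤ cyc0 E x S := cyc0_mono Finset.inter_subset_left
      rw [h1, hT.2.2]; linarith
    · obtain ⟨hS0, hS1, hS2⟩ := hS
      obtain ⟨hT0, hT1, hT2⟩ := hT
      rw [hS2, hT2]
      rcases cyc0_cases E x (S ∪ T) with hU | hU | hU
      · rw [hU.2]
        have h2 : cyc0 E x (S ∩ T) ≤ cyc0 E x S := cyc0_mono Finset.inter_subset_left
        linarith
      · -- then the intersection is empty
        have h3 := h hU.2.1.1 hU.2.1.2
        have h4 : S ∩ T = ∅ := by
          rw [Finset.eq_empty_iff_forall_notMem]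
          intro i hi
          rw [Finset.mem_inter] at hi
          obtain ⟨e, he⟩ := hU.2.1.2
          rw [Finset.mem_inter] at he
          have hx := hU.2.1.1
          rcases h3 i (Finset.mem_union_left _ hi.1) with h5 | h5
          · rw [h5] at hi
            rcases Finset.mem_union.1 he.1 with h6 | h6
            · exact hS1 ⟨hi.1, e, Finset.mem_inter.2 ⟨h6, he.2⟩⟩
            · exact hT1 ⟨hi.2, e, Finset.mem_inter.2 ⟨h6, he.2⟩⟩
          · rcases Finset.mem_union.1 hx with h6 | h6
            · exact hS1 ⟨h6, i, Finset.mem_inter.2 ⟨hi.1, h5⟩⟩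
            · exact hT1 ⟨h6, i, Finset.mem_inter.2 ⟨hi.2, h5⟩⟩
        rw [h4, cyc0_empty, hU.2.2]; norm_num
      · rw [hU.2.2]
        have h2 : cyc0 E x (S ∩ T) ≤ cyc0 E x S := cyc0_mono Finset.inter_subset_left
        linarith

theorem cyc_partial {D E H : Finset (Fin n)} {x y : Fin n} (hM : IsScenario M)
    (hxy : ¬ Adj M x y) (hDE : ∀ d ∈ D, ∀ e ∈ E, ¬ Adj M d e)
    (hH : ∀ i, i ∈ H ↔ i ∈ D ∨ i ∈ E ∨ i = x ∨ i = y) :
    IsPartialPolymatroid M (fun T => cyc0 E x (T ∩ H)) := by
  have hadj : ∀ U ∈ M, ∀ i ∈ U, ∀ j ∈ U, Adj M i j := by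
    intro U hU i hi j hj
    refine hM.2 U hU _ ?_
    intro k hk
    simp only [Finset.mem_insert, Finset.mem_singleton] at hk
    rcases hk with rfl | rfl <;> assumption
  refine ⟨by simp [cyc0_empty], fun _ _ => cyc0_nonneg _ _ _, ?_, ?_⟩
  · intro S _ T _ h
    exact cyc0_mono (Finset.inter_subset_inter h (le_refl H))
  · intro S _ T _ hST
    have e1 : (S ∪ T) ∩ H = S ∩ H ∪ T ∩ H := Finset.union_inter_distrib_right _ _ _
    have e2 : (S ∩ T) ∩ H = (S ∩ H) ∩ (T ∩ H) := by
      ext i; simp only [Finset.mem_inter]; tauto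
    change cyc0 E x ((S ∪ T) ∩ H) + cyc0 E x ((S ∩ T) ∩ H) ≤ cyc0 E x (S ∩ H) + cyc0 E x (T ∩ H)
    rw [e1, e2]
    refine cyc0_sub ?_
    rw [← e1]
    rintro hx ⟨e, he⟩ i hi
    rw [Finset.mem_inter] at hx hi he
    have hi' := (hH i).1 hi.2
    have he' := Finset.mem_inter.1 he.1
    rcases hi' with h | h | h | h
    · exact absurd (hadj _ hST i hi.1 e he'.1) (hDE i h e he.2)
    · exact Or.inr h
    · exact Or.inl h
    · exact absurd (hadj _ hST x hx.1 i hi.1) (h ▸ hxy)

/-- a minimal separator is a clique -/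
theorem separator_clique (hM : IsScenario M)
    (hP : ∀ g, IsPartialPolymatroid M g → NonContextual M g)
    {W S X : Finset (Fin n)} {a b : Fin n} (hW : ∀ v ∈ W, Adj M v v) (hSW : S ⊆ W)
    (h : Side M W S X a b)
    (hmin : ∀ S' X' : Finset (Fin n), Side M W S' X' a b → S.card ≤ S'.card) :
    ∀ x ∈ S, ∀ y ∈ S, Adj M x y := by
  intro x hx y hy
  by_cases hxy' : x = y
  · rw [← hxy']; exact hW x (hSW hx)
  by_contra hxy
  obtain ⟨Y, hY⟩ : ∃ Y, Y = (W \ X) \ S := ⟨_, rfl⟩
  have hsymm := h.symm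
  rw [← hY] at hsymm
  have hmin' : ∀ S' X' : Finset (Fin n), Side M W S' X' b a → S.card ≤ S'.card :=
    fun S' X' h' => hmin S' _ h'.symm
  obtain ⟨H, hH⟩ : ∃ H, H = X ∪ Y ∪ {x, y} := ⟨_, rfl⟩
  have hHm : ∀ i, i ∈ H ↔ i ∈ X ∨ i ∈ Y ∨ i = x ∨ i = y := by
    intro i; rw [hH]; simp only [Finset.mem_union, Finset.mem_insert, Finset.mem_singleton]; tauto
  have hXY : ∀ d ∈ X, ∀ e ∈ Y, ¬ Adj M d e := by
    intro d hd e he hde
    rw [hY, Finset.mem_sdiff, Finset.mem_sdiff] at he
    rcases h.2.2.2.2.2.2 d hd e he.1.1 hde with h' | h'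
    · exact he.1.2 h'
    · exact he.2 h'
  obtain ⟨f, ⟨_, _, fm, fs⟩, hf⟩ := hP _ (cyc_partial hM hxy hXY hHm)
  have hxX : x ∉ X := fun h' => Finset.disjoint_left.1 h.2.1 h' hx
  have hxY : x ∉ Y := fun h' => Finset.disjoint_left.1 hsymm.2.1 h' hx
  have hyX : y ∉ X := fun h' => Finset.disjoint_left.1 h.2.1 h' hy
  have hyY : y ∉ Y := fun h' => Finset.disjoint_left.1 hsymm.2.1 h' hy
  have hXYd : ∀ v ∈ X, v ∉ Y := by
    intro v hv hv'
    rw [hY, Finset.mem_sdiff, Finset.mem_sdiff] at hv'
    exact hv'.1.2 hv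
  -- values of `f` on faces with two elements
  have val1 : ∀ u ∈ H, ∀ v, Adj M u v → ¬ (u = x ∧ v ∈ Y) → ¬ (v = x ∧ u ∈ Y) →
      f {u, v} = 1 := by
    intro u hu v huv h1 h2
    rw [hf _ huv]
    refine cyc0_one ⟨u, by simp [hu]⟩ ?_
    rintro ⟨h3, e, he⟩
    simp only [Finset.mem_inter, Finset.mem_insert, Finset.mem_singleton] at h3 he
    rcases h3.1 with h4 | h4
    · rcases he.1.1 with h5 | h5
      · rw [h5, ← h4] at he; exact hxY (h4 ▸ he.2)
      · exact h1 ⟨h4.symm, h5 ▸ he.2⟩
    · rcases he.1.1 with h5 | h5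
      · exact h2 ⟨h4.symm, h5 ▸ he.2⟩
      · rw [h5, ← h4] at he; exact hxY (h4 ▸ he.2)
  have hWH : ∀ v ∈ W, v ∈ H → f {v} = 1 := by
    intro v hv hvH
    have h1 := val1 v hvH v (hW v hv) (by rintro ⟨rfl, h'⟩; exact hxY h')
      (by rintro ⟨rfl, h'⟩; exact hxY h')
    rwa [Finset.pair_eq_singleton] at h1
  -- transitivity
  have trans : ∀ u v w : Fin n, f {u} = 1 → f {v} = 1 → f {u, v} = 1 → f {v, w} = 1 →
      f {u, w} = 1 := by
    intro u v w h1 h2 h3 h4
    apply le_antisymm
    · have h5 := fs {u, v} {v, w}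
      have h6 := fm {v} ({u, v} ∩ {v, w}) (by
        intro i hi; rw [Finset.mem_singleton] at hi; simp [hi])
      have h7 := fm {u, w} ({u, v} ∪ {v, w}) (by
        intro i hi
        simp only [Finset.mem_insert, Finset.mem_singleton] at hi
        rcases hi with hi | hi <;> simp [hi])
      linarith
    · rw [← h1]; exact fm _ _ (by simp)
  have hxW := hSW hx
  have hyW := hSW hy
  have hxH : x ∈ H := (hHm x).2 (Or.inr (Or.inr (Or.inl rfl)))
  have hyH : y ∈ H := (hHm y).2 (Or.inr (Or.inr (Or.inr rfl)))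
  have fx := hWH x hxW hxH
  have fy := hWH y hyW hyH
  have fX : ∀ v ∈ X, f {v} = 1 := fun v hv => hWH v (h.1 hv) ((hHm v).2 (Or.inl hv))
  have fY : ∀ v ∈ Y, f {v} = 1 := fun v hv => hWH v (hsymm.1 hv) ((hHm v).2 (Or.inr (Or.inl hv)))
  -- first side
  obtain ⟨v, hv, hvx, hvy⟩ := side_step h hmin hx hy (fun v => f {v, x} = 1) (by
    intro v hv w hw hvw hvx
    have h1 : f {v, w} = 1 := val1 v ((hHm v).2 (Or.inl hv)) w hvw
      (by rintro ⟨rfl, _⟩; exact hxX hv) (by rintro ⟨rfl, _⟩; exact hxX hw)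
    rw [Finset.pair_comm] at h1
    exact trans w v x (fX w hw) (fX v hv) h1 hvx) (by
    intro v hv hvx
    exact val1 v ((hHm v).2 (Or.inl hv)) x hvx (by rintro ⟨rfl, _⟩; exact hxX hv)
      (by rintro ⟨_, h'⟩; exact hXYd v hv h'))
  have h1 : f {v, y} = 1 := val1 v ((hHm v).2 (Or.inl hv)) y hvy
    (by rintro ⟨rfl, _⟩; exact hxX hv) (by rintro ⟨h', _⟩; exact hxy' h'.symm)
  have h2 : f {x, y} = 1 := by
    rw [Finset.pair_comm] at hvx
    exact trans x v y fx (fX v hv) hvx h1
  -- second side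
  obtain ⟨w, hw, hwy, hwx⟩ := side_step hsymm hmin' hy hx (fun v => f {v, y} = 1) (by
    intro v hv w hw hvw hvy
    have h1 : f {v, w} = 1 := val1 v ((hHm v).2 (Or.inr (Or.inl hv))) w hvw
      (by rintro ⟨rfl, _⟩; exact hxY hv) (by rintro ⟨rfl, _⟩; exact hxY hw)
    rw [Finset.pair_comm] at h1
    exact trans w v y (fY w hw) (fY v hv) h1 hvy) (by
    intro v hv hvy
    exact val1 v ((hHm v).2 (Or.inr (Or.inl hv))) y hvy (by rintro ⟨rfl, _⟩; exact hxY hv)
      (by rintro ⟨h', _⟩; exact hxy' h'.symm))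
  have h3 : f {w, x} = 2 := by
    rw [hf _ hwx]
    refine cyc0_two (e := w) ?_ ?_ hw
    · simp [hxH]
    · simp only [Finset.mem_inter, Finset.mem_insert, Finset.mem_singleton, true_or, true_and]
      exact (hHm w).2 (Or.inr (Or.inl hw))
  have h4 : f {w, x} = 1 := by
    rw [Finset.pair_comm] at h2
    exact trans w y x (fY w hw) fy hwy h2
  linarith

/-! ### Simplicial vertices -/

/-- `s` is simplicial in `W` -/
def Simpl (M : Set (Finset (Fin n))) (W : Finset (Fin n)) (s : Fin n) : Prop :=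
  s ∈ W ∧ ∀ v ∈ W, ∀ w ∈ W, Adj M s v → Adj M s w → Adj M v w

theorem simplicial_side {W S X : Finset (Fin n)} {a b : Fin n}
    (h : Side M W S X a b) (hclique : ∀ x ∈ S, ∀ y ∈ S, Adj M x y)
    (ih : (∀ x ∈ X ∪ S, ∀ y ∈ X ∪ S, Adj M x y) ∨
      ∃ s t, Simpl M (X ∪ S) s ∧ Simpl M (X ∪ S) t ∧ ¬ Adj M s t) :
    ∃ s ∈ X, Simpl M W s := by
  have key : ∀ s ∈ X, Simpl M (X ∪ S) s → Simpl M W s := by
    intro s hs hss
    refine ⟨h.1 hs, fun v hv w hw h1 h2 => hss.2 v ?_ w ?_ h1 h2⟩
    · exact Finset.mem_union.2 (h.2.2.2.2.2.2 s hs v hv h1)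
    · exact Finset.mem_union.2 (h.2.2.2.2.2.2 s hs w hw h2)
  rcases ih with ih | ⟨s, t, hs, ht, hst⟩
  · refine ⟨a, h.2.2.1, key a h.2.2.1 ⟨Finset.mem_union_left _ h.2.2.1, ?_⟩⟩
    intro v hv w hw _ _
    exact ih v hv w hw
  · by_cases h1 : s ∈ X
    · exact ⟨s, h1, key s h1 hs⟩
    · by_cases h2 : t ∈ X
      · exact ⟨t, h2, key t h2 ht⟩
      · exfalso
        refine hst (hclique s ?_ t ?_)
        · exact (Finset.mem_union.1 hs.1).resolve_left h1
        · exact (Finset.mem_union.1 ht.1).resolve_left h2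

/-- Dirac's theorem -/
theorem dirac (hM : IsScenario M) (hP : ∀ g, IsPartialPolymatroid M g → NonContextual M g) :
    ∀ m : ℕ, ∀ W : Finset (Fin n), W.card = m → (∀ v ∈ W, Adj M v v) →
    (∀ x ∈ W, ∀ y ∈ W, Adj M x y) ∨ ∃ s t, Simpl M W s ∧ Simpl M W t ∧ ¬ Adj M s t := by
  intro m
  induction m using Nat.strong_induction_on with
  | _ m ih =>
    intro W hm hW
    by_cases hc : ∀ x ∈ W, ∀ y ∈ W, Adj M x y
    · exact Or.inl hc
    right
    push Not at hc
    obtain ⟨a, ha, b, hb, hab⟩ := hc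
    have hne : a ≠ b := by rintro rfl; exact hab (hW a ha)
    -- a minimal separator
    have hex : ∃ c : ℕ, ∃ S X : Finset (Fin n), S ⊆ W ∧ Side M W S X a b ∧ S.card = c := by
      refine ⟨_, (W.erase a).erase b, {a}, ?_, ⟨?_, ?_, ?_, hb, ?_, ?_, ?_⟩, rfl⟩
      · exact (Finset.erase_subset _ _).trans (Finset.erase_subset _ _)
      · intro i hi; rw [Finset.mem_singleton] at hi; rw [hi]; exact ha
      · rw [Finset.disjoint_singleton_left]; simp
      · simp
      · simp [hne.symm]
      · simp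
      · intro v hv w hw hvw
        rw [Finset.mem_singleton] at hv
        subst hv
        by_cases hwv : w = v
        · left; rw [hwv]; simp
        · right
          refine Finset.mem_erase.2 ⟨?_, Finset.mem_erase.2 ⟨hwv, hw⟩⟩
          rintro rfl; exact hab hvw
    classical
    obtain ⟨S, X, hSW, hside, hcard⟩ := Nat.find_spec hex
    have hmin : ∀ S' X' : Finset (Fin n), Side M W S' X' a b → S.card ≤ S'.card := by
      intro S' X' h'
      rw [hcard]
      have h1 : Side M W (S' ∩ W) X' a b := by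
        obtain ⟨p1, p2, p3, p4, p5, p6, p7⟩ := h'
        refine ⟨p1, ?_, p3, p4, p5, ?_, ?_⟩
        · exact Finset.disjoint_of_subset_right Finset.inter_subset_left p2
        · intro h; exact p6 (Finset.mem_inter.1 h).1
        · intro v hv w hw hvw
          rcases p7 v hv w hw hvw with h | h
          · exact Or.inl h
          · exact Or.inr (Finset.mem_inter.2 ⟨h, hw⟩)
      exact (Nat.find_min' hex ⟨S' ∩ W, X', Finset.inter_subset_right, h1, rfl⟩).trans
        (Finset.card_le_card Finset.inter_subset_left)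
    have hclique := separator_clique hM hP hW hSW hside hmin
    have hsymm := hside.symm
    have hlt : ∀ Z : Finset (Fin n), Z ⊆ W → (∃ z ∈ W, z ∉ Z) → Z.card < m := by
      rintro Z hZ ⟨z, hz, hz'⟩
      rw [← hm]
      exact Finset.card_lt_card ⟨hZ, fun h => hz' (h hz)⟩
    have hX : X ∪ S ⊆ W := Finset.union_subset hside.1 hSW
    have hY : (W \ X) \ S ∪ S ⊆ W := Finset.union_subset hsymm.1 hSW
    obtain ⟨s, hs, hs'⟩ := simplicial_side hside hclique
      (ih _ (hlt _ hX ⟨b, hb, by
        rw [Finset.mem_union, not_or]; exact ⟨hside.2.2.2.2.1, hside.2.2.2.2.2.1⟩⟩) _ rfl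
        (fun v hv => hW v (hX hv)))
    obtain ⟨t, ht, ht'⟩ := simplicial_side hsymm hclique
      (ih _ (hlt _ hY ⟨a, ha, by
        rw [Finset.mem_union, not_or]; exact ⟨hsymm.2.2.2.2.1, hsymm.2.2.2.2.2.1⟩⟩) _ rfl
        (fun v hv => hW v (hY hv)))
    refine ⟨s, t, hs', ht', fun hst => ?_⟩
    rw [Finset.mem_sdiff, Finset.mem_sdiff] at ht
    rcases hside.2.2.2.2.2.2 s hs t ht.1.1 hst with h | h
    · exact ht.1.2 h
    · exact ht.2 h

theorem exists_simplicial (hM : IsScenario M)
    (hP : ∀ g, IsPartialPolymatroid M g → NonContextual M g) {W : Finset (Fin n)}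
    (hW : ∀ v ∈ W, Adj M v v) (hne : W.Nonempty) : ∃ s, Simpl M W s := by
  rcases dirac hM hP _ W rfl hW with h | ⟨s, _, hs, _⟩
  · obtain ⟨v, hv⟩ := hne
    exact ⟨v, hv, fun x hx y hy _ _ => h x hx y hy⟩
  · exact ⟨s, hs⟩

/-! ### The running intersection order -/

theorem regular_on (hM : IsScenario M)
    (hP : ∀ g, IsPartialPolymatroid M g → NonContextual M g) :
    ∀ m : ℕ, ∀ W : Finset (Fin n), W.card = m → (∀ v ∈ W, Adj M v v) →
      VorobevRegular {S | S ∈ M ∧ S ⊆ W} := by
  classical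
  intro m
  induction m with
  | zero =>
    intro W hm _
    rw [Finset.card_eq_zero] at hm
    subst hm
    refine ⟨1, fun _ => ∅, ?_, ?_, ?_⟩
    · intro S
      constructor
      · rintro ⟨⟨_, h⟩, _⟩
        exact ⟨0, by norm_num, (Finset.subset_empty.1 h).symm⟩
      · rintro ⟨_, _, rfl⟩
        exact ⟨⟨hM.1, le_rfl⟩, fun G hG _ => (Finset.subset_empty.1 hG.2).symm⟩
    · intro i hi j hj _
      omega
    · intro j hj hj'
      omega
  | succ m ih =>
    intro W hm hW
    obtain ⟨s, hsW, hs⟩ := exists_simplicial hM hP hW (Finset.card_pos.1 (by omega))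
    have hcard := Finset.card_erase_of_mem hsW
    obtain ⟨k, F, hF, hinj, hrip⟩ := ih (W.erase s) (by omega)
      (fun v hv => hW v (Finset.mem_of_mem_erase hv))
    obtain ⟨N, hN⟩ : ∃ N, N = (W.erase s).filter (fun v => Adj M s v) := ⟨_, rfl⟩
    have hNm : ∀ v, v ∈ N ↔ v ≠ s ∧ v ∈ W ∧ Adj M s v := by
      intro v; rw [hN, Finset.mem_filter, Finset.mem_erase]; tauto
    have hsN : s ∉ N := fun h => ((hNm s).1 h).1 rfl
    have hsNM : insert s N ∈ M := by
      apply flag hM hP
      intro a ha b hb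
      rw [Finset.mem_insert] at ha hb
      rcases ha with rfl | ha
      · rcases hb with rfl | hb
        · exact hW _ hsW
        · exact ((hNm b).1 hb).2.2
      · rcases hb with rfl | hb
        · exact ((hNm a).1 ha).2.2.symm
        · exact hs a ((hNm a).1 ha).2.1 b ((hNm b).1 hb).2.1 ((hNm a).1 ha).2.2
            ((hNm b).1 hb).2.2
    have hNM : N ∈ M := hM.2 _ hsNM _ (Finset.subset_insert _ _)
    have hNW : N ⊆ W.erase s := by rw [hN]; exact Finset.filter_subset _ _
    have hsNW : insert s N ⊆ W := by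
      intro i hi
      rcases Finset.mem_insert.1 hi with h | h
      · rw [h]; exact hsW
      · exact ((hNm i).1 h).2.1
    -- a face containing `s` is contained in `insert s N`
    have hface : ∀ G ∈ M, G ⊆ W → s ∈ G → G ⊆ insert s N := by
      intro G hG hGW hsG i hi
      by_cases his : i = s
      · rw [his]; exact Finset.mem_insert_self _ _
      · refine Finset.mem_insert_of_mem ((hNm i).2 ⟨his, hGW hi, ?_⟩)
        refine hM.2 G hG _ ?_
        intro k hk
        simp only [Finset.mem_insert, Finset.mem_singleton] at hk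
        rcases hk with hk | hk
        · rw [hk]; exact hsG
        · rw [hk]; exact hi
    have f1 : IsFacet {S | S ∈ M ∧ S ⊆ W} (insert s N) := by
      refine ⟨⟨hsNM, hsNW⟩, fun G hG h => Finset.Subset.antisymm h ?_⟩
      exact hface G hG.1 hG.2 (h (Finset.mem_insert_self _ _))
    have f2 : ∀ G, IsFacet {S | S ∈ M ∧ S ⊆ W} G → s ∈ G → G = insert s N := by
      intro G hG hsG
      exact hG.2 _ ⟨hsNM, hsNW⟩ (hface G hG.1.1 hG.1.2 hsG)
    have f3 : ∀ G, s ∉ G → (IsFacet {S | S ∈ M ∧ S ⊆ W} G ↔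
        IsFacet {S | S ∈ M ∧ S ⊆ W.erase s} G ∧ G ≠ N) := by
      intro G hsG
      constructor
      · rintro ⟨⟨hG1, hG2⟩, hG3⟩
        refine ⟨⟨⟨hG1, Finset.subset_erase.2 ⟨hG2, hsG⟩⟩, fun G' hG' h => ?_⟩, ?_⟩
        · exact hG3 G' ⟨hG'.1, hG'.2.trans (Finset.erase_subset _ _)⟩ h
        · rintro rfl
          have := hG3 _ ⟨hsNM, hsNW⟩ (Finset.subset_insert _ _)
          rw [this] at hsG
          exact hsG (Finset.mem_insert_self _ _)
      · rintro ⟨⟨⟨hG1, hG2⟩, hG3⟩, hGN⟩
        refine ⟨⟨hG1, hG2.trans (Finset.erase_subset _ _)⟩, fun G' hG' h => ?_⟩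
        by_cases hsG' : s ∈ G'
        · exfalso
          apply hGN
          refine hG3 N ⟨hNM, hNW⟩ ?_
          intro i hi
          have h1 := hface G' hG'.1 hG'.2 hsG' (h hi)
          rcases Finset.mem_insert.1 h1 with h2 | h2
          · exact absurd (h2 ▸ hi) hsG
          · exact h2
        · exact hG3 G' ⟨hG'.1, Finset.subset_erase.2 ⟨hG'.2, hsG'⟩⟩ h
    have hsF : ∀ j < k, s ∉ F j := by
      intro j hj h
      have := ((hF (F j)).2 ⟨j, hj, rfl⟩).1.2 h
      exact Finset.notMem_erase _ _ this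
    by_cases hNf : IsFacet {S | S ∈ M ∧ S ⊆ W.erase s} N
    · obtain ⟨j0, hj0, hFj0⟩ := (hF N).1 hNf
      obtain ⟨F1, hF1⟩ : ∃ F1 : ℕ → Finset (Fin n), F1 = fun j => if j = j0 then insert s N else F j :=
        ⟨_, rfl⟩
      have e1 : F1 j0 = insert s N := by rw [hF1]; simp
      have e2 : ∀ j, j ≠ j0 → F1 j = F j := by intro j hj; rw [hF1]; simp [hj]
      have e3 : ∀ j, F j ⊆ F1 j := by
        intro j
        by_cases h : j = j0
        · rw [h, e1, hFj0]; exact Finset.subset_insert _ _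
        · rw [e2 j h]
      have e4 : ∀ j, ∀ z ∈ F1 j, z ≠ s → z ∈ F j := by
        intro j z hz hzs
        by_cases h : j = j0
        · rw [h, e1] at hz
          rw [h, hFj0]
          exact (Finset.mem_insert.1 hz).resolve_left hzs
        · rwa [e2 j h] at hz
      have e5 : ∀ j < k, s ∈ F1 j → j = j0 := by
        intro j hj h
        by_contra h'
        rw [e2 j h'] at h
        exact hsF j hj h
      refine ⟨k, F1, ?_, ?_, ?_⟩
      · intro S
        constructor
        · intro hS
          by_cases hsS : s ∈ S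
          · exact ⟨j0, hj0, by rw [e1, f2 S hS hsS]⟩
          · obtain ⟨h1, h2⟩ := (f3 S hsS).1 hS
            obtain ⟨j, hj, h3⟩ := (hF S).1 h1
            refine ⟨j, hj, ?_⟩
            rw [e2 j (by rintro rfl; exact h2 (h3.symm.trans hFj0)), h3]
        · rintro ⟨j, hj, rfl⟩
          by_cases h : j = j0
          · rw [h, e1]; exact f1
          · rw [e2 j h]
            refine (f3 _ (hsF j hj)).2 ⟨(hF _).2 ⟨j, hj, rfl⟩, ?_⟩
            intro h'
            exact h (hinj j hj j0 hj0 (h'.trans hFj0.symm))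
      · intro i hi j hj hij
        by_cases h : i = j0
        · have : s ∈ F1 j := by rw [← hij, h, e1]; exact Finset.mem_insert_self _ _
          rw [h, e5 j hj this]
        · by_cases h' : j = j0
          · have : s ∈ F1 i := by rw [hij, h', e1]; exact Finset.mem_insert_self _ _
            exact absurd (e5 i hi this) h
          · rw [e2 i h, e2 j h'] at hij
            exact hinj i hi j hj hij
      · intro j hj hj1
        obtain ⟨i, hi, hsub⟩ := hrip j hj hj1
        refine ⟨i, hi, fun z hz => e3 i (hsub ?_)⟩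
        rw [Finset.mem_inter, Finset.mem_biUnion] at hz ⊢
        obtain ⟨hz1, l, hl, hz2⟩ := hz
        rw [Finset.mem_range] at hl
        have hzs : z ≠ s := by
          rintro rfl
          have h1 := e5 j hj hz1
          have h2 := e5 l (by omega) hz2
          omega
        exact ⟨e4 j z hz1 hzs, l, Finset.mem_range.2 hl, e4 l z hz2 hzs⟩
    · obtain ⟨F1, hF1⟩ : ∃ F1 : ℕ → Finset (Fin n), F1 = fun j => if j = k then insert s N else F j :=
        ⟨_, rfl⟩
      have e1 : F1 k = insert s N := by rw [hF1]; simp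
      have e2 : ∀ j, j ≠ k → F1 j = F j := by intro j hj; rw [hF1]; simp [hj]
      refine ⟨k + 1, F1, ?_, ?_, ?_⟩
      · intro S
        constructor
        · intro hS
          by_cases hsS : s ∈ S
          · exact ⟨k, by omega, by rw [e1, f2 S hS hsS]⟩
          · obtain ⟨h1, h2⟩ := (f3 S hsS).1 hS
            obtain ⟨j, hj, h3⟩ := (hF S).1 h1
            exact ⟨j, by omega, by rw [e2 j (by omega), h3]⟩
        · rintro ⟨j, hj, rfl⟩
          by_cases h : j = k
          · rw [h, e1]; exact f1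
          · rw [e2 j h]
            have hjk : j < k := by omega
            have h1 : IsFacet {S | S ∈ M ∧ S ⊆ W.erase s} (F j) := (hF _).2 ⟨j, hjk, rfl⟩
            refine (f3 _ (hsF j hjk)).2 ⟨h1, ?_⟩
            intro h'
            exact hNf (h' ▸ h1)
      · intro i hi j hj hij
        by_cases h : i = k
        · by_cases h' : j = k
          · omega
          · rw [h, e1, e2 j h'] at hij
            exact absurd (hij ▸ Finset.mem_insert_self s N) (hsF j (by omega))
        · by_cases h' : j = k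
          · rw [h', e1, e2 i h] at hij
            exact absurd (hij ▸ Finset.mem_insert_self s N) (hsF i (by omega))
          · rw [e2 i h, e2 j h'] at hij
            exact hinj i (by omega) j (by omega) hij
      · intro j hj hj1
        by_cases h : j = k
        · obtain ⟨G, hG, hNG⟩ := exists_facet (M := {S | S ∈ M ∧ S ⊆ W.erase s}) N ⟨hNM, hNW⟩
          obtain ⟨i, hi, hFi⟩ := (hF G).1 hG
          refine ⟨i, by omega, fun z hz => ?_⟩
          rw [e2 i (by omega), hFi]
          rw [h, e1, Finset.mem_inter, Finset.mem_biUnion] at hz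
          obtain ⟨hz1, l, hl, hz2⟩ := hz
          rw [Finset.mem_range] at hl
          rw [e2 l (by omega)] at hz2
          rcases Finset.mem_insert.1 hz1 with h1 | h1
          · rw [h1] at hz2; exact absurd hz2 (hsF l hl)
          · exact hNG h1
        · obtain ⟨i, hi, hsub⟩ := hrip j (by omega) hj1
          refine ⟨i, hi, fun z hz => ?_⟩
          rw [e2 i (by omega)]
          refine hsub ?_
          rw [e2 j h] at hz
          rw [Finset.mem_inter, Finset.mem_biUnion] at hz ⊢
          obtain ⟨hz1, l, hl, hz2⟩ := hz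
          rw [Finset.mem_range] at hl
          rw [e2 l (by omega)] at hz2
          exact ⟨hz1, l, Finset.mem_range.2 hl, hz2⟩

theorem regular (hM : IsScenario M)
    (hP : ∀ g, IsPartialPolymatroid M g → NonContextual M g) : VorobevRegular M := by
  classical
  have h := regular_on hM hP _ (univ.filter fun v => Adj M v v) rfl
    (fun v hv => (Finset.mem_filter.1 hv).2)
  have e : {S | S ∈ M ∧ S ⊆ univ.filter fun v => Adj M v v} = M := by
    ext S
    constructor
    · exact fun h => h.1
    · intro hS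
      refine ⟨hS, fun v hv => Finset.mem_filter.2 ⟨Finset.mem_univ _, ?_⟩⟩
      refine hM.2 S hS _ ?_
      rw [Finset.pair_eq_singleton]
      exact Finset.singleton_subset_iff.2 hv
  rwa [e] at h

/-! ### Big facets -/

/-- the function of the Vámos type, with a common information of the first two elements -/
def vam (p q r d c : Bool) : ℕ :=
  let s := p.toNat + q.toNat + r.toNat + d.toNat
  let v := if s = 0 then 0 else if s = 1 then 2 else if s = 2 then
    (if r = true ∧ d = true then 4 else 3) else 4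
  if c = true then max 1 v else v

theorem vam_mono' : ∀ p q r d c p' q' r' d' c' : Bool,
    ((!p || p') && (!q || q') && (!r || r') && (!d || d') && (!c || c') && !(c' && d')) = true →
    vam p q r d c ≤ vam p' q' r' d' c' := by
  decide

theorem vam_mono (p q r d c p' q' r' d' c' : Bool) (h1 : p = true → p' = true)
    (h2 : q = true → q' = true) (h3 : r = true → r' = true) (h4 : d = true → d' = true)
    (h5 : c = true → c' = true) (h6 : ¬ (c' = true ∧ d' = true)) :
    vam p q r d c ≤ vam p' q' r' d' c' := by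
  apply vam_mono'
  revert h1 h2 h3 h4 h5 h6
  cases p <;> cases p' <;> cases q <;> cases q' <;> cases r <;> cases r' <;> cases d <;> cases d' <;>
    cases c <;> cases c' <;> simp

theorem vam_sub : ∀ p q r d c p' q' r' d' c' : Bool,
    ¬ ((c || c') = true ∧ (d || d') = true) →
    vam (p || p') (q || q') (r || r') (d || d') (c || c') +
      vam (p && p') (q && q') (r && r') (d && d') (c && c') ≤
      vam p q r d c + vam p' q' r' d' c' := by
  decide

theorem big_facet (hM : IsScenario M)
    (hP : ∀ g, IsPartialPolymatroid M g → NonContextual M g) {F G : Finset (Fin n)}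
    (hF : IsFacet M F) (hG : IsFacet M G) (hne : F ≠ G) (h4 : 4 ≤ F.card) :
    (F ∩ G).card ≤ 1 := by
  classical
  by_contra hcon
  push Not at hcon
  have hadj : ∀ U ∈ M, ∀ i ∈ U, ∀ j ∈ U, Adj M i j := by
    intro U hU i hi j hj
    refine hM.2 U hU _ ?_
    intro k hk
    simp only [Finset.mem_insert, Finset.mem_singleton] at hk
    rcases hk with rfl | rfl <;> assumption
  obtain ⟨c, hcG, hcF⟩ : ∃ c ∈ G, c ∉ F := by
    by_contra h
    push Not at h
    exact hne (hG.2 F hF.1 h).symm
  obtain ⟨d, hdF, hcd⟩ : ∃ d ∈ F, ¬ Adj M c d := by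
    by_contra h
    push Not at h
    have h1 : insert c F ∈ M := by
      apply flag hM hP
      intro a ha b hb
      rw [Finset.mem_insert] at ha hb
      rcases ha with rfl | ha
      · rcases hb with rfl | hb
        · exact hadj G hG.1 _ hcG _ hcG
        · exact h b hb
      · rcases hb with rfl | hb
        · exact (h a ha).symm
        · exact hadj F hF.1 a ha b hb
    have h2 := hF.2 _ h1 (Finset.subset_insert _ _)
    rw [h2] at hcF
    exact hcF (Finset.mem_insert_self _ _)
  have hdG : d ∉ G := fun h => hcd (hadj G hG.1 c hcG d h)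
  obtain ⟨p, hp, q, hq, hpq⟩ := Finset.one_lt_card.1 hcon
  rw [Finset.mem_inter] at hp hq
  have hpd : p ≠ d := by rintro rfl; exact hdG hp.2
  have hqd : q ≠ d := by rintro rfl; exact hdG hq.2
  obtain ⟨r, hr⟩ : (((F.erase p).erase q).erase d).Nonempty := by
    rw [← Finset.card_pos]
    have h1 : d ∈ (F.erase p).erase q :=
      Finset.mem_erase.2 ⟨hqd.symm, Finset.mem_erase.2 ⟨hpd.symm, hdF⟩⟩
    have h2 : q ∈ F.erase p := Finset.mem_erase.2 ⟨hpq.symm, hq.1⟩
    rw [Finset.card_erase_of_mem h1, Finset.card_erase_of_mem h2, Finset.card_erase_of_mem hp.1]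
    omega
  simp only [Finset.mem_erase] at hr
  obtain ⟨hrd, hrq, hrp, hrF⟩ := hr
  have hpc : p ≠ c := by rintro rfl; exact hcF hp.1
  have hqc : q ≠ c := by rintro rfl; exact hcF hq.1
  have hrc : r ≠ c := by rintro rfl; exact hcF hrF
  have hdc : d ≠ c := by rintro rfl; exact hcF hdF
  -- the partial polymatroid
  obtain ⟨f, ⟨_, _, fm, fs⟩, hf⟩ := hP (fun T => (vam (decide (p ∈ T)) (decide (q ∈ T))
    (decide (r ∈ T)) (decide (d ∈ T)) (decide (c ∈ T)) : ℝ)) (by
    have hnot : ∀ U ∈ M, ¬ (c ∈ U ∧ d ∈ U) := by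
      rintro U hU ⟨h1, h2⟩
      exact hcd (hadj U hU c h1 d h2)
    refine ⟨?_, fun _ _ => Nat.cast_nonneg _, ?_, ?_⟩
    · simp [vam]
    · intro S _ T hT h
      have h1 := vam_mono (decide (p ∈ S)) (decide (q ∈ S))
        (decide (r ∈ S)) (decide (d ∈ S)) (decide (c ∈ S)) (decide (p ∈ T)) (decide (q ∈ T))
        (decide (r ∈ T)) (decide (d ∈ T)) (decide (c ∈ T)) (by simpa using fun h' => h h')
        (by simpa using fun h' => h h') (by simpa using fun h' => h h')
        (by simpa using fun h' => h h') (by simpa using fun h' => h h')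
        (by simpa using fun h1 h2 => hnot T hT ⟨h1, h2⟩)
      exact Nat.cast_le.2 h1
    · intro S _ T _ hST
      have h1 := vam_sub (decide (p ∈ S)) (decide (q ∈ S))
        (decide (r ∈ S)) (decide (d ∈ S)) (decide (c ∈ S)) (decide (p ∈ T)) (decide (q ∈ T))
        (decide (r ∈ T)) (decide (d ∈ T)) (decide (c ∈ T)) (by
          have := hnot _ hST
          simpa [Finset.mem_union] using this)
      have e1 : ∀ i, (decide (i ∈ S) || decide (i ∈ T)) = decide (i ∈ S ∪ T) := by
        intro i; simp [Finset.mem_union]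
      have e2 : ∀ i, (decide (i ∈ S) && decide (i ∈ T)) = decide (i ∈ S ∩ T) := by
        intro i; simp [Finset.mem_inter]
      simp only [e1, e2] at h1
      have h2 := (Nat.cast_le (α := ℝ)).2 h1
      rw [Nat.cast_add, Nat.cast_add] at h2
      exact h2)
  have hFs : ∀ T : Finset (Fin n), T ⊆ F → T ∈ M := fun T hT => hM.2 F hF.1 T hT
  have hGs : ∀ T : Finset (Fin n), T ⊆ G → T ∈ M := fun T hT => hM.2 G hG.1 T hT
  have npq := hpq; have nqp := hpq.symm
  have npd := hpd; have ndp := hpd.symm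
  have nqd := hqd; have ndq := hqd.symm
  have nrd := hrd; have ndr := hrd.symm
  have nrq := hrq; have nqr := hrq.symm
  have nrp := hrp; have npr := hrp.symm
  have npc := hpc; have ncp := hpc.symm
  have nqc := hqc; have ncq := hqc.symm
  have nrc := hrc; have ncr := hrc.symm
  have ndc := hdc; have ncd := hdc.symm
  have sub2 : ∀ (A : Finset (Fin n)) (a b : Fin n), a ∈ A → b ∈ A → ({a, b} : Finset (Fin n)) ⊆ A := by
    intro A a b ha hb i hi
    simp only [Finset.mem_insert, Finset.mem_singleton] at hi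
    rcases hi with rfl | rfl <;> assumption
  have sub3 : ∀ (A : Finset (Fin n)) (a b c : Fin n), a ∈ A → b ∈ A → c ∈ A →
      ({a, b, c} : Finset (Fin n)) ⊆ A := by
    intro A a b c ha hb hc i hi
    simp only [Finset.mem_insert, Finset.mem_singleton] at hi
    rcases hi with rfl | rfl | rfl <;> assumption
  have v_p : f {p} = 2 := by
    rw [hf _ (hFs _ (Finset.singleton_subset_iff.2 hp.1))]
    simp [vam, nqp, nrp, ndp, ncp]
  have v_q : f {q} = 2 := by
    rw [hf _ (hFs _ (Finset.singleton_subset_iff.2 hq.1))]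
    simp [vam, npq, nrq, ndq, ncq]
  have v_c : f {c} = 1 := by
    rw [hf _ (hGs _ (Finset.singleton_subset_iff.2 hcG))]
    simp [vam, npc, nrc, ndc, nqc]
  have v_pr : f {p, r} = 3 := by
    rw [hf _ (hFs _ (sub2 _ _ _ hp.1 hrF))]
    simp [vam, nqp, ndp, ncp, nqr, ndr, ncr]
  have v_pc : f {p, c} = 2 := by
    rw [hf _ (hGs _ (sub2 _ _ _ hp.2 hcG))]
    simp [vam, nqp, ndp, ndc, nrp, nrc, nqc]
  have v_qr : f {q, r} = 3 := by
    rw [hf _ (hFs _ (sub2 _ _ _ hq.1 hrF))]
    simp [vam, npq, npr, ndq, ndr, ncq, ncr]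
  have v_qc : f {q, c} = 2 := by
    rw [hf _ (hGs _ (sub2 _ _ _ hq.2 hcG))]
    simp [vam, npq, ndq, ndc, nrq, nrc, npc]
  have v_pd : f {p, d} = 3 := by
    rw [hf _ (hFs _ (sub2 _ _ _ hp.1 hdF))]
    simp [vam, nqp, nqd, ncp, nrp, nrd, ncd]
  have v_qd : f {q, d} = 3 := by
    rw [hf _ (hFs _ (sub2 _ _ _ hq.1 hdF))]
    simp [vam, npq, npd, ncq, nrq, nrd, ncd]
  have v_rd : f {r, d} = 4 := by
    rw [hf _ (hFs _ (sub2 _ _ _ hrF hdF))]
    simp [vam, npr, npd, nqr, nqd, ncr, ncd]
  have v_pqr : f {p, q, r} = 4 := by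
    rw [hf _ (hFs _ (sub3 _ _ _ _ hp.1 hq.1 hrF))]
    simp [vam, ndp, ndq, ndr, ncp, ncq, ncr]
  have v_pqd : f {p, q, d} = 4 := by
    rw [hf _ (hFs _ (sub3 _ _ _ _ hp.1 hq.1 hdF))]
    simp [vam, nrp, nrq, nrd, ncp, ncq, ncd]
  -- the contradiction
  have main : ∀ x : Fin n, f {p, x} = 3 → f {q, x} = 3 → f {p, q, x} = 4 → f {x, c} ≤ 2 := by
    intro x h1 h2 h3
    have k1 := fs {p, x} {p, c}
    have k2 := fm {p} ({p, x} ∩ {p, c}) (by
      intro i hi; rw [Finset.mem_singleton] at hi; simp [hi])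
    have k3 := fs {q, x} {q, c}
    have k4 := fm {q} ({q, x} ∩ {q, c}) (by
      intro i hi; rw [Finset.mem_singleton] at hi; simp [hi])
    have k5 := fs ({p, x} ∪ {p, c}) ({q, x} ∪ {q, c})
    have k6 := fm {p, q, x} (({p, x} ∪ {p, c}) ∪ ({q, x} ∪ {q, c})) (by
      intro i hi
      simp only [Finset.mem_insert, Finset.mem_singleton, Finset.mem_union] at hi ⊢
      tauto)
    have k7 := fm {x, c} (({p, x} ∪ {p, c}) ∩ ({q, x} ∪ {q, c})) (by
      intro i hi
      simp only [Finset.mem_insert, Finset.mem_singleton, Finset.mem_union,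
        Finset.mem_inter] at hi ⊢
      tauto)
    linarith
  have m1 := main r v_pr v_qr v_pqr
  have m2 := main d v_pd v_qd v_pqd
  have k1 := fs {r, c} {d, c}
  have k2 := fm {c} ({r, c} ∩ {d, c}) (by
    intro i hi; rw [Finset.mem_singleton] at hi; simp [hi])
  have k3 := fm {r, d} ({r, c} ∪ {d, c}) (by
    intro i hi
    simp only [Finset.mem_insert, Finset.mem_singleton, Finset.mem_union] at hi ⊢
    tauto)
  linarith

/-! ### The classification -/

theorem classification (hM : IsScenario M) :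
    (∀ g, IsPartialPolymatroid M g → NonContextual M g) ↔
      VorobevRegular M ∧ ∀ F G, IsFacet M F → IsFacet M G → F ≠ G → 4 ≤ F.card →
        (F ∩ G).card ≤ 1 := by
  constructor
  · intro hP
    exact ⟨regular hM hP, fun F G hF hG hne h4 => big_facet hM hP hF hG hne h4⟩
  · rintro ⟨⟨k, F, hF, hinj, hrip⟩, hbig⟩ g ⟨g0, _, gm, gs⟩
    have hFf : ∀ j < k, IsFacet M (F j) := fun j hj => (hF _).2 ⟨j, hj, rfl⟩
    have hk : 0 < k := by
      obtain ⟨G, hG, _⟩ := exists_facet (M := M) ∅ hM.1
      obtain ⟨j, hj, _⟩ := (hF G).1 hG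
      omega
    obtain ⟨f, hf, hfg⟩ := extends_of_order (M := M) (g := g) (k := k) (F := F)
      (fun G hG => ⟨g0, fun S T hST hT => gm S (hM.2 G hG S (hST.trans hT)) T (hM.2 G hG T hT) hST,
        fun S T hS hT => gs S (hM.2 G hG S hS) T (hM.2 G hG T hT)
          (hM.2 G hG _ (Finset.union_subset hS hT))⟩)
      (fun j hj => (hFf j hj).1)
      (fun S hS => by
        obtain ⟨G, hG, hSG⟩ := exists_facet (M := M) S hS
        obtain ⟨j, hj, h⟩ := (hF G).1 hG
        exact ⟨j, hj, h ▸ hSG⟩) hk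
      (fun i hi j hj hij h => hij (hinj i hi j hj ((hFf i hi).2 _ (hFf j hj).1 h)))
      (fun i hi j hj hij h4 => hbig _ _ (hFf i hi) (hFf j hj)
        (fun h => hij (hinj i hi j hj h)) h4)
      (fun j hj h => hrip j hj h)
    exact ⟨f, hf, hfg⟩

/-- **The marginal scenarios on which every partial polymatroid extends.** Every partial
polymatroid on `M` is non-contextual iff `M` is Vorob'ev-regular and every facet with at least
four elements meets every other facet in at most one element. In particular there is a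
Vorob'ev-regular marginal scenario which carries a contextual partial polymatroid. -/
theorem result :
    (∀ (n : ℕ) (M : Set (Finset (Fin n))), IsScenario M →
      ((∀ g, IsPartialPolymatroid M g → NonContextual M g) ↔
        VorobevRegular M ∧ ∀ F G, IsFacet M F → IsFacet M G → F ≠ G → 4 ≤ F.card →
          (F ∩ G).card ≤ 1)) ∧
    ∃ (n : ℕ) (M : Set (Finset (Fin n))), IsScenario M ∧ VorobevRegular M ∧
      ∃ g, IsPartialPolymatroid M g ∧ ¬ NonContextual M g := by
  refine ⟨fun n M hM => classification hM, ?_⟩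
  obtain ⟨M, hMdef⟩ : ∃ M : Set (Finset (Fin 5)),
      M = {S | S ⊆ {0, 1, 2, 3} ∨ S ⊆ {0, 1, 4}} := ⟨_, rfl⟩
  have hmem : ∀ S, S ∈ M ↔ S ⊆ {0, 1, 2, 3} ∨ S ⊆ {0, 1, 4} := by
    intro S; rw [hMdef]; rfl
  have hM : IsScenario M := by
    refine ⟨(hmem _).2 (Or.inl (Finset.empty_subset _)), fun S hS T hT => ?_⟩
    rcases (hmem S).1 hS with h | h
    · exact (hmem T).2 (Or.inl (hT.trans h))
    · exact (hmem T).2 (Or.inr (hT.trans h))
  have hA : IsFacet M {0, 1, 2, 3} := by
    refine ⟨(hmem _).2 (Or.inl le_rfl), fun G hG h => ?_⟩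
    rcases (hmem G).1 hG with h' | h'
    · exact Finset.Subset.antisymm h h'
    · exact absurd (h.trans h') (by decide)
  have hB : IsFacet M {0, 1, 4} := by
    refine ⟨(hmem _).2 (Or.inr le_rfl), fun G hG h => ?_⟩
    rcases (hmem G).1 hG with h' | h'
    · exact absurd (h.trans h') (by decide)
    · exact Finset.Subset.antisymm h h'
  have hreg : VorobevRegular M := by
    refine ⟨2, fun j => if j = 0 then {0, 1, 2, 3} else {0, 1, 4}, ?_, ?_, ?_⟩
    · intro S
      constructor
      · rintro ⟨h1, h2⟩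
        rcases (hmem S).1 h1 with h | h
        · exact ⟨0, by norm_num, by simpa using (h2 _ hA.1 h).symm⟩
        · exact ⟨1, by norm_num, by simpa using (h2 _ hB.1 h).symm⟩
      · rintro ⟨j, _, rfl⟩
        by_cases hj : j = 0
        · simp only [if_pos hj]; exact hA
        · simp only [if_neg hj]; exact hB
    · intro i hi j hj hij
      interval_cases i <;> interval_cases j
      · rfl
      · exact absurd hij (by decide)
      · exact absurd hij (by decide)
      · rfl
    · intro j hj hj1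
      interval_cases j
      exact ⟨0, by norm_num, by decide⟩
  refine ⟨5, M, hM, hreg, ?_⟩
  by_contra hcon
  push Not at hcon
  have h := ((classification hM).1 hcon).2 _ _ hA hB (by decide) (by decide)
  exact absurd h (by decide)

end Pool.Agent.Results.MP_e7d137_lc.Classification
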